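import Pool.Agent.Lib.MP_77ed85_an.Main

set_option autoImplicit false

open Pool.Agent.Lib.MP_77ed85_an in
/-- The stabiliser in `A` and the diagonal endomorphisms of a lattice with cusp excursions of rate
below one. -/
theorem Pool.Agent.Results.MP_77ed85_an.SlowStabiliser.result
    (d : ℕ) (hd : 2 ≤ d) (g : Matrix (Fin d) (Fin d) ℝ) (hg : g.det = 1)
    (hrate : RateBelowOne g) :
    ∃ (a : Fin d → ℝ) (γ : Matrix (Fin d) (Fin d) ℤ) (m : ℕ),
      Matrix.diagonal a * g = g * γ.map (fun z : ℤ => (z : ℝ)) ∧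
      (∀ b, IsEndomorphism g b → ∀ i j, a i = a j → b i = b j) ∧
      m ∣ d ∧ (∀ i, (Finset.univ.filter (fun j => a j = a i)).card = m) ∧
      (∀ i, γ.charpoly.map (Int.castRingHom ℚ) = minpoly ℚ (a i) ^ m) ∧
      (m < d ↔ ∃ b, IsEndomorphism g b ∧ ∃ i j, b i ≠ b j) ∧
      (∀ t : Fin d → ℝ, ∑ i, t i = 0 → IsEndomorphism g (fun i => Real.exp (t i)) →
        Matrix.diagonal (fun i => Real.exp (t i)) ∈ blockGroup a) ∧
      LatticeStabiliser g (blockGroup a) ∧ IsClosed (orbit g (blockGroup a)) ∧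
      IsClosed (orbit g (centraliser a)) ∧
      (m = 1 → LatticeStabiliser g (diagonalGroup d) ∧
        closure (orbit g (diagonalGroup d)) = orbit g (diagonalGroup d) ∧
        ∃ c : ℝ, 0 < c ∧ ∀ t : Fin d → ℝ, ∑ i, t i = 0 → ∀ v : Fin d → ℤ, v ≠ 0 →
          c ≤ ‖(Matrix.diagonal (fun i => Real.exp (t i)) * g).mulVec (fun i => (v i : ℝ))‖) := by
  obtain ⟨a, ⟨γ, hfix⟩, hfin⟩ := exists_finest g
  obtain ⟨m, hm, hmin⟩ := fibres hrate hg hfix.symm
  obtain ⟨h1, h2, h2', h3⟩ := fibres_dvd (by omega) hm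
  have hH : ∀ s ∈ blockSpace a, ∑ i, s i = 0 := fun s hs => hs.1
  obtain ⟨r, hr⟩ := block_cocompact hd hrate hg hfix.symm hm h3
  have hL := lattice_stab (blockSpace a) hH hg hr
  have hO := orbit_closed (blockSpace a) hH hg hr
  rw [expGroup_blockSpace] at hL hO
  refine ⟨a, γ, m, hfix, hfin, h1, hm, hmin, ⟨fun h => ?_, ?_⟩, ?_, hL, hO,
    centraliser_orbit_closed hg hfix.symm, fun hm1 => ?_⟩
  · by_contra hcon
    push Not at hcon
    exact h.ne (h2' (hcon a ⟨γ, hfix⟩))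
  · rintro ⟨b, hb, i, j, hij⟩
    exact h2 ⟨i, j, fun h => hij (hfin b hb i j h)⟩
  · intro t ht hte
    exact ⟨t, ht, fun i j hij => Real.exp_injective (hfin _ hte i j hij), rfl⟩
  have hall : ∀ s : Fin d → ℝ, ∑ i, s i = 0 → s ∈ blockSpace a := by
    intro s hs
    refine ⟨hs, fun i j hij => ?_⟩
    have h5 := hm j
    rw [hm1, Finset.card_eq_one] at h5
    obtain ⟨x, hx⟩ := h5
    have hi : i ∈ Finset.univ.filter (fun k => a k = a j) := by simp [hij]
    have hj : j ∈ Finset.univ.filter (fun k => a k = a j) := by simp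
    rw [hx, Finset.mem_singleton] at hi hj
    rw [hi, hj]
  have heq : blockGroup a = diagonalGroup d := by
    ext M
    constructor
    · rintro ⟨s, hs, _, rfl⟩
      exact ⟨s, hs, rfl⟩
    · rintro ⟨s, hs, rfl⟩
      exact ⟨s, hs, (hall s hs).2, rfl⟩
  obtain ⟨c, hc0, hc⟩ := bounded_orbit (blockSpace a) hg hr
  rw [← heq]
  exact ⟨hL, hO.closure_eq, c, hc0, fun t ht v hv => hc t (hall t ht) v hv⟩
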